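import Pool.Agent.Y920.EP.Stm
import Pool.Agent.Y664.ET.Inert

/-!
Project EP (helper920), job EP-INERT': nontrivial inertia for infinite Galois extensions.
-/

set_option autoImplicit false
set_option linter.unusedVariables false
set_option linter.style.haveILetI false

namespace Pool.Agent.Y419.EP

open Pool.Agent.Y920.EP Pool.Agent.Y664.ET Polynomial

open scoped Pointwise

variable {F K : Type} [Field F] [Field K] [Algebra F K]

/-- The elements fixed by the stabilizer of a radical. -/
theorem poly_form [IsGalois F K] {p : ℕ} (hp : p ≠ 0) {c : F} {y : K}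
    (hy : y ^ p = algebraMap F K c) {a : K} (ha : ∀ σ : K ≃ₐ[F] K, σ y = y → σ a = a) :
    ∃ f : ℕ → F, a = ∑ i ∈ Finset.range p, algebraMap F K (f i) * y ^ i := by
  have h1 : a ∈ IntermediateField.adjoin F {y} := by
    rw [← InfiniteGalois.fixedField_fixingSubgroup (IntermediateField.adjoin F {y}),
      IntermediateField.mem_fixedField_iff]
    intro σ hσ
    refine ha σ ?_
    exact hσ ⟨y, IntermediateField.mem_adjoin_simple_self F y⟩
  have hint : IsIntegral F y := Algebra.IsIntegral.isIntegral y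
  rw [← IntermediateField.mem_toSubalgebra,
    IntermediateField.adjoin_simple_toSubalgebra_of_isAlgebraic hint.isAlgebraic,
    Algebra.adjoin_singleton_eq_range_aeval] at h1
  obtain ⟨r, hr⟩ := h1
  have hq : (X ^ p - C c : F[X]).Monic := monic_X_pow_sub_C c hp
  have hroot : aeval y (X ^ p - C c : F[X]) = 0 := by
    rw [map_sub, map_pow, aeval_X, aeval_C, hy, sub_self]
  have h2 : aeval y (r %ₘ (X ^ p - C c)) = aeval y r :=
    aeval_modByMonic_eq_self_of_root hroot
  refine ⟨(r %ₘ (X ^ p - C c)).coeff, ?_⟩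
  have h3 : (r %ₘ (X ^ p - C c)).natDegree < p := by
    have h4 := natDegree_modByMonic_lt r hq (fun h => by
      have := congrArg natDegree h
      rw [natDegree_X_pow_sub_C, natDegree_one] at this
      exact hp this)
    rwa [natDegree_X_pow_sub_C] at h4
  have h5 : aeval y r = a := hr
  rw [← h5, ← h2, aeval_eq_sum_range' h3]
  exact Finset.sum_congr rfl fun i _ => Algebra.smul_def _ _

section
variable (O : ValuationSubring K) {p : ℕ} (hp : p.Prime) {c : F} {y : K} (hc : c ≠ 0)
  (hy : y ^ p = algebraMap F K c)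
  (hnu : ∀ f : F, f ≠ 0 → algebraMap F K (c * f ^ p) ∈ O → algebraMap F K (c * f ^ p)⁻¹ ∉ O)
include hp hc hy hnu

theorem val1_ne (f : F) (hf : f ≠ 0) : O.valuation (algebraMap F K f * y) ≠ 1 := by
  intro h
  have h4 : O.valuation (algebraMap F K (c * f ^ p)) = 1 := by
    have h6 : algebraMap F K (c * f ^ p) = (algebraMap F K f * y) ^ p := by
      rw [mul_pow, hy, map_mul, map_pow]
      ring
    rw [h6, map_pow, h, one_pow]
  refine hnu f hf ((O.valuation_le_one_iff _).1 h4.le) ?_
  rw [map_inv₀]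
  apply (O.valuation_le_one_iff _).1
  rw [map_inv₀, h4, inv_one]

theorem val_ne (f : F) (hf : f ≠ 0) {k : ℕ} (hk : 0 < k) (hkp : k < p) :
    O.valuation (algebraMap F K f * y ^ k) ≠ 1 := by
  intro h
  obtain ⟨u, m, hum⟩ : ∃ u m : ℕ, u * k = 1 + m * p := by
    have hcop : Nat.Coprime k p :=
      ((Nat.Prime.coprime_iff_not_dvd hp).2 fun h => by
        have := Nat.le_of_dvd hk h
        omega).symm
    obtain ⟨u, -, hu⟩ := Nat.exists_mul_mod_eq_one_of_coprime hcop hp.one_lt
    refine ⟨u, k * u / p, ?_⟩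
    have h1 := Nat.div_add_mod (k * u) p
    rw [hu] at h1
    rw [mul_comm u k, mul_comm (k * u / p) p]
    omega
  have h1 : (algebraMap F K f * y ^ k) ^ u = algebraMap F K (f ^ u * c ^ m) * y := by
    rw [mul_pow, ← pow_mul, mul_comm k u, hum, pow_add, pow_one, mul_comm m p, pow_mul, hy,
      map_mul, map_pow, map_pow]
    ring
  refine val1_ne O hp hc hy hnu (f ^ u * c ^ m) (mul_ne_zero (pow_ne_zero _ hf)
    (pow_ne_zero _ hc)) ?_
  rw [← h1, map_pow, h, one_pow]

/-- The terms of an integral element. -/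
theorem terms_lt (f : ℕ → F)
    (ha : ∑ i ∈ Finset.range p, algebraMap F K (f i) * y ^ i ∈ O) {i : ℕ} (hi : 0 < i)
    (hip : i < p) : O.valuation (algebraMap F K (f i) * y ^ i) < 1 := by
  classical
  have hc' : algebraMap F K c ≠ 0 := (_root_.map_ne_zero _).2 hc
  have hy0 : y ≠ 0 := by
    rintro rfl
    apply hc'
    rw [← hy, zero_pow hp.ne_zero]
  have hdiff : ∀ j k : ℕ, j < k → k < p → f j ≠ 0 → f k ≠ 0 →
      O.valuation (algebraMap F K (f j) * y ^ j) ≠ O.valuation (algebraMap F K (f k) * y ^ k) := by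
    intro j k hjk hkp hj hk h
    refine val_ne O hp hc hy hnu (f k / f j) (div_ne_zero hk hj) (k := k - j) (by omega)
      (by omega) ?_
    have h1 : algebraMap F K (f k / f j) * y ^ (k - j) =
        (algebraMap F K (f k) * y ^ k) / (algebraMap F K (f j) * y ^ j) := by
      have h2 : y ^ k = y ^ (k - j) * y ^ j := by
        rw [← pow_add]
        congr 1
        omega
      have h3 : algebraMap F K (f j) ≠ 0 := (_root_.map_ne_zero _).2 hj
      rw [map_div₀, h2]
      field_simp
    have h4 : O.valuation (algebraMap F K (f j) * y ^ j) ≠ 0 := by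
      rw [Valuation.ne_zero_iff]
      exact mul_ne_zero ((_root_.map_ne_zero _).2 hj) (pow_ne_zero _ hy0)
    rw [h1, map_div₀, ← h, div_self h4]
  have hdiff' : ∀ j k : ℕ, j ≠ k → j < p → k < p → f j ≠ 0 → f k ≠ 0 →
      O.valuation (algebraMap F K (f j) * y ^ j) ≠ O.valuation (algebraMap F K (f k) * y ^ k) := by
    intro j k hjk hjp hkp hj hk
    rcases lt_or_gt_of_ne hjk with h | h
    · exact hdiff j k h hkp hj hk
    · exact (hdiff k j h hjp hk hj).symm
  obtain ⟨m, hm, hmax⟩ := Finset.exists_max_image (Finset.range p)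
    (fun j => O.valuation (algebraMap F K (f j) * y ^ j)) ⟨i, Finset.mem_range.2 hip⟩
  have hle : O.valuation (algebraMap F K (f m) * y ^ m) ≤ 1 := by
    by_cases hfm : f m = 0
    · rw [hfm, map_zero, zero_mul, map_zero]
      exact zero_le_one
    have h1 : O.valuation (∑ j ∈ (Finset.range p).erase m, algebraMap F K (f j) * y ^ j) <
        O.valuation (algebraMap F K (f m) * y ^ m) := by
      refine Valuation.map_sum_lt _ ?_ ?_
      · rw [Valuation.ne_zero_iff]
        exact mul_ne_zero ((_root_.map_ne_zero _).2 hfm) (pow_ne_zero _ hy0)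
      · intro j hj
        rw [Finset.mem_erase, Finset.mem_range] at hj
        by_cases hfj : f j = 0
        · rw [hfj, map_zero, zero_mul, map_zero, Valuation.pos_iff]
          exact mul_ne_zero ((_root_.map_ne_zero _).2 hfm) (pow_ne_zero _ hy0)
        · exact lt_of_le_of_ne (hmax j (Finset.mem_range.2 hj.2))
            (hdiff' j m hj.1 hj.2 (Finset.mem_range.1 hm) hfj hfm)
    rw [← Finset.add_sum_erase _ _ hm] at ha
    have h2 := (O.valuation_le_one_iff _).2 ha
    rwa [Valuation.map_add_eq_of_lt_left _ h1] at h2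
  have h3 := (hmax i (Finset.mem_range.2 hip)).trans hle
  by_cases hfi : f i = 0
  · rw [hfi, map_zero, zero_mul, map_zero]
    exact zero_lt_one
  · exact lt_of_le_of_ne h3 (val_ne O hp hc hy hnu (f i) hfi hi hip)

/-- The automorphism is trivial modulo the maximal ideal on the fixed elements. -/
theorem close [IsGalois F K] {s : K ≃ₐ[F] K} {z : K} (hs : s y = z * y) (hz : z ^ p = 1) {a : K}
    (ha : ∀ σ : K ≃ₐ[F] K, σ y = y → σ a = a) (haO : a ∈ O) : O.valuation (s a - a) < 1 := by
  obtain ⟨f, hf⟩ := poly_form hp.ne_zero hy ha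
  have hvz : O.valuation z = 1 := by
    have h1 : O.valuation z ^ p = 1 := by rw [← map_pow, hz, map_one]
    exact (pow_eq_one_iff_of_nonneg zero_le hp.ne_zero).1 h1
  have h2 : s a - a = ∑ i ∈ Finset.range p, (z ^ i - 1) * (algebraMap F K (f i) * y ^ i) := by
    conv_lhs => rw [hf]
    rw [map_sum, ← Finset.sum_sub_distrib]
    refine Finset.sum_congr rfl fun i _ => ?_
    rw [map_mul, AlgEquiv.commutes, map_pow, hs, mul_pow]
    ring
  rw [h2]
  refine Valuation.map_sum_lt _ one_ne_zero fun i hi => ?_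
  rcases Nat.eq_zero_or_pos i with h | h
  · rw [h, pow_zero, sub_self, zero_mul, map_zero]
    exact zero_lt_one
  · have h3 : O.valuation (algebraMap F K (f i) * y ^ i) < 1 :=
      terms_lt O hp hc hy hnu f (hf ▸ haO) h (Finset.mem_range.1 hi)
    have h4 : O.valuation (z ^ i - 1) ≤ 1 := by
      refine (Valuation.map_sub _ _ _).trans (max_le ?_ ?_)
      · rw [map_pow, hvz, one_pow]
      · rw [map_one]
    rw [map_mul]
    calc O.valuation (z ^ i - 1) * O.valuation (algebraMap F K (f i) * y ^ i)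
        ≤ 1 * O.valuation (algebraMap F K (f i) * y ^ i) := mul_le_mul_left h4 _
      _ < 1 := by rwa [one_mul]

end

theorem t_INERT' : S_INERT' := by
  intro p hp F K _ _ _ _ _ O hO c y hc hy hnu
  classical
  have hc' : algebraMap F K c ≠ 0 := (_root_.map_ne_zero _).2 hc
  have hy0 : y ≠ 0 := by
    rintro rfl
    apply hc'
    rw [← hy, zero_pow hp.ne_zero]
  -- an automorphism which moves `y`
  obtain ⟨s, z, hs, hz, hz1⟩ : ∃ (s : K ≃ₐ[F] K) (z : K), s y = z * y ∧ z ^ p = 1 ∧ z ≠ 1 := by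
    by_contra hcon
    push Not at hcon
    obtain ⟨f, hf⟩ := (InfiniteGalois.mem_range_algebraMap_iff_fixed (k := F) y).2 (by
      intro σ
      have h1 := hcon σ (σ y / y) (by rw [div_mul_cancel₀ _ hy0]) (by
        rw [div_pow, ← map_pow, hy, AlgEquiv.commutes, div_self hc'])
      rwa [div_eq_one_iff_eq hy0] at h1)
    have hf0 : f ≠ 0 := by
      rintro rfl
      rw [map_zero] at hf
      exact hy0 hf.symm
    have h3 : c * (f⁻¹) ^ p = 1 := by
      apply (algebraMap F K).injective
      rw [map_mul, ← hy, ← hf, ← map_pow, ← map_mul, inv_pow, mul_inv_cancel₀ (pow_ne_zero p hf0)]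
    have h4 := hnu f⁻¹ (inv_ne_zero hf0)
    rw [h3, inv_one, map_one] at h4
    exact h4 O.one_mem O.one_mem
  let Gy : Subgroup (K ≃ₐ[F] K) := MulAction.stabilizer (K ≃ₐ[F] K) y
  letI : MulSemiringAction Gy O := act O hO Gy
  have hsm : ∀ (g : Gy) (x : O), ((g • x : O) : K) = g.1 x.1 := fun g x => rfl
  have hopen : IsOpen (Gy : Set (K ≃ₐ[F] K)) := stabilizer_isOpen_of_isIntegral y
  haveI : CompactSpace Gy := isCompact_iff_compactSpace.1 (Subgroup.isClosed_of_isOpen Gy hopen).isCompact
  letI : TopologicalSpace O := ⊥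
  haveI : DiscreteTopology O := ⟨rfl⟩
  haveI : ContinuousSMul Gy O := by
    rw [continuousSMul_iff_stabilizer_isOpen]
    intro x
    have h1 : IsOpen (MulAction.stabilizer (K ≃ₐ[F] K) (x : K) : Set (K ≃ₐ[F] K)) :=
      stabilizer_isOpen_of_isIntegral (x : K)
    have h3 := h1.preimage (continuous_subtype_val (p := fun g => g ∈ Gy))
    convert h3 using 1
    ext g
    simp only [SetLike.mem_coe, MulAction.mem_stabilizer_iff, Set.mem_preimage]
    rw [Subtype.ext_iff]
    rfl
  let A := FixedPoints.subring O Gy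
  haveI : Algebra.IsInvariant A O Gy := ⟨fun b hb => ⟨⟨b, hb⟩, rfl⟩⟩
  let Q : Ideal O := IsLocalRing.maximalIdeal O
  let P : Ideal A := Q.under A
  have hsQ : ∀ (σ : K ≃ₐ[F] K) (x : O), autO O hO σ x ∈ Q ↔ x ∈ Q := by
    intro σ x
    rw [ValuationSubring.valuation_lt_one_iff, ValuationSubring.valuation_lt_one_iff]
    exact val_lt O hO σ x.1
  have hmap : Q = Q.map (autO O hO s : O →+* O) := by
    ext x
    constructor
    · intro hx
      have : x = autO O hO s (autO O hO s⁻¹ x) :=
        Subtype.ext (s.apply_symm_apply x.1).symm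
      rw [this]
      exact Ideal.mem_map_of_mem _ ((hsQ _ _).2 hx)
    · intro hx
      have : Q.map (autO O hO s : O →+* O) ≤ Q := by
        rw [Ideal.map_le_iff_le_comap]
        intro z hz
        exact (hsQ s z).2 hz
      exact this hx
  let sb : (O ⧸ Q) ≃ₐ[A ⧸ P] (O ⧸ Q) := AlgEquiv.ofRingEquiv (f := Ideal.quotientEquiv Q Q
    (autO O hO s) hmap) (by
      intro r
      obtain ⟨a, rfl⟩ := Ideal.Quotient.mk_surjective r
      show Ideal.Quotient.mk Q (autO O hO s a.1) = Ideal.Quotient.mk Q a.1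
      rw [Ideal.Quotient.eq, ValuationSubring.valuation_lt_one_iff]
      refine close O hp hc hy hnu hs hz (a := (a.1 : K)) ?_ a.1.2
      intro σ hσ
      have := a.2 ⟨σ, hσ⟩
      exact congrArg Subtype.val this)
  obtain ⟨τ, hτ⟩ := Ideal.Quotient.stabilizerHom_surjective_of_profinite (G := Gy) P Q sb
  have hτb : ∀ b : O, O.valuation (τ.1.1 b.1 - s b.1) < 1 := by
    intro b
    have h1 := DFunLike.congr_fun hτ (Ideal.Quotient.mk Q b)
    have h3 : Ideal.Quotient.mk Q (τ.1 • b) = Ideal.Quotient.mk Q (autO O hO s b) := h1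
    rw [Ideal.Quotient.eq, ValuationSubring.valuation_lt_one_iff] at h3
    exact h3
  refine ⟨τ.1.1⁻¹ * s, ?_, ?_⟩
  · intro h
    have h1 : (τ.1.1⁻¹ * s) y = y := by rw [h]; rfl
    rw [AlgEquiv.mul_apply, hs, map_mul] at h1
    have h3 : τ.1.1⁻¹ y = y := (inv_mem τ.1.2 : τ.1.1⁻¹ ∈ Gy)
    rw [h3] at h1
    have h4 : τ.1.1⁻¹ z = 1 := mul_right_cancel₀ hy0 (by rw [h1, one_mul])
    have h5 : z = τ.1.1 (τ.1.1⁻¹ z) := (τ.1.1.apply_symm_apply z).symm
    rw [h4, map_one] at h5
    exact hz1 h5
  · intro x hx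
    have h1 := hτb ⟨x, hx⟩
    rw [← val_lt O hO τ.1.1]
    have h3 : τ.1.1 ((τ.1.1⁻¹ * s) x - x) = -(τ.1.1 x - s x) := by
      rw [map_sub, AlgEquiv.mul_apply]
      have : τ.1.1 (τ.1.1⁻¹ (s x)) = s x := τ.1.1.apply_symm_apply _
      rw [this]
      ring
    rw [h3, Valuation.map_neg]
    exact h1

end Pool.Agent.Y419.EP
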